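import Mathlib
import Pool.Agent.Lib_helper43.LA.Defs2

/-!
# The defect of the key inequality is symmetric in the two sides
-/

set_option autoImplicit false
set_option linter.unusedSectionVars false

open scoped Kronecker ComplexOrder

namespace Pool.Agent.Lib_helper56.LA

open Matrix Pool.Agent.Lib_helper98.Renyi Pool.Agent.Lib_helper43.LA

variable {n m : Type*} [Fintype n] [DecidableEq n] [Fintype m] [DecidableEq m]

/-- `Tr X^s` does not see a renaming of the basis. -/
theorem trPow_submatrix (s : ℝ) {X : Matrix n n ℂ} (hX : X.IsHermitian) (e : m ≃ n) :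
    trPow s (X.submatrix e e) = trPow s X := by
  obtain ⟨U, x, hU, hU', rfl⟩ := exists_spectral hX
  have hW : (U.submatrix e e)ᴴ * U.submatrix e e = 1 := by
    rw [conjTranspose_submatrix, submatrix_mul_equiv, hU, submatrix_one_equiv]
  have hd : (diagonal (fun i => (x i : ℂ))).submatrix e e =
      diagonal (fun i => ((x (e i) : ℝ) : ℂ)) := by
    rw [submatrix_diagonal_equiv]; rfl
  have hE : (U * diagonal (fun i => (x i : ℂ)) * Uᴴ).submatrix e e =
      U.submatrix e e * diagonal (fun i => ((x (e i) : ℝ) : ℂ)) * (U.submatrix e e)ᴴ := by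
    rw [conjTranspose_submatrix, ← hd, submatrix_mul_equiv, submatrix_mul_equiv]
  rw [hE, trPow_conj_diagonal _ _ hW, trPow_conj_diagonal _ _ hU]
  exact e.sum_comp fun i => supPow s (x i)

theorem kron_swap (A : Matrix n n ℂ) (B : Matrix m m ℂ) :
    (A ⊗ₖ B).submatrix (Equiv.prodComm m n) (Equiv.prodComm m n) = B ⊗ₖ A := by
  ext ⟨i, j⟩ ⟨k, l⟩
  simp [kroneckerMap_apply, mul_comm]

theorem DD_herm {ρ C : Matrix n n ℂ} (h : Pr ρ C) (p : ℝ) : (DD p ρ C).IsHermitian := by
  have hm := (mpow_posSemidef h.psd (1 / (2 * p))).1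
  rw [IsHermitian, DD, conjTranspose_mul, conjTranspose_mul, hm.eq, h.herm.eq, Matrix.mul_assoc]

theorem kron_herm {A : Matrix n n ℂ} {B : Matrix m m ℂ} (hA : A.IsHermitian)
    (hB : B.IsHermitian) : (A ⊗ₖ B).IsHermitian := by
  rw [IsHermitian, conjTranspose_kronecker, hA.eq, hB.eq]

theorem Gfun_swap (p : ℝ) {A D : Matrix n n ℂ} {A' D' : Matrix m m ℂ} (hA : A.IsHermitian)
    (hD : D.IsHermitian) (hA' : A'.IsHermitian) (hD' : D'.IsHermitian) :
    Gfun p (A' ⊗ₖ A) (D' ⊗ₖ D) = Gfun p (A ⊗ₖ A') (D ⊗ₖ D') := by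
  have h1 := kron_herm hA hA'
  have h2 := kron_herm hD hD'
  rw [Gfun, Gfun, ← kron_swap A A', ← kron_swap D D',
    ← trPow_submatrix p (h1.add h2) (Equiv.prodComm m n),
    ← trPow_submatrix p (h1.sub h2) (Equiv.prodComm m n),
    ← trPow_submatrix p h1 (Equiv.prodComm m n)]
  rfl

/-- block SWAP -/
theorem swap : SwapTarget := by
  intro n m _ _ _ _ p ρ C ρ' C' h h' _
  have a := (mpow_posSemidef h.psd (1 / p)).1
  have a' := (mpow_posSemidef h'.psd (1 / p)).1
  have e := Gfun_swap p (A := AA p ρ) (D := DD p ρ C) (A' := AA p ρ') (D' := DD p ρ' C')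
    a (DD_herm h p) a' (DD_herm h' p)
  rw [Lam, Lam, e]
  ring

end Pool.Agent.Lib_helper56.LA
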